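import Pool.Agent.helper45.CubeF

/-!
# More letters: from `H(k,n)` to `H(k+2,n)`, and to `H(k+1,n)` for even `k`

A 2-colouring of `H(k,n)` can be pulled back along a map of alphabets `φ` which has a section `ι`
that commutes with the reversal of the alphabet.
-/

namespace Pool.Agent.helper65.HJ

open Pool.Agent.helper45.Cube

/-- Pull back a colouring along a map of alphabets. -/
theorem colorable_of_section {k k' n : ℕ} (hk' : 2 ≤ k') (φ : Fin k' → Fin k)
    (ι : Fin k → Fin k') (h1 : ∀ t, φ (ι t) = t) (h2 : ∀ t, (ι t).rev = ι t.rev)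
    (h : TwoColorable k n) : TwoColorable k' n := by
  obtain ⟨c, hc⟩ := h
  refine ⟨fun x => c (fun i => φ (x i)), fun e he => ?_⟩
  obtain ⟨K, ⟨i0, hi0⟩, hK⟩ := edge_structure hk' he
  let K' : Fin n → Kind k := fun i => match K i with
    | .const a => .const (φ a)
    | .fwd => .fwd
    | .bwd => .bwd
  have hact : (K' i0).active = true := by
    cases hi : K i0 with
    | const a => rw [hi] at hi0; exact absurd hi0 (by simp [Kind.active])
    | fwd => simp [K', hi, Kind.active]
    | bwd => simp [K', hi, Kind.active]
  have hval : ∀ t : Fin k, (fun i => (K' i).val t) = fun i => φ ((K i).val (ι t)) := by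
    intro t
    funext i
    cases hi : K i with
    | const a => simp [K', hi, Kind.val]
    | fwd => simp [K', hi, Kind.val, h1]
    | bwd => simp [K', hi, Kind.val, h1, h2]
  obtain ⟨x, hx, y, hy, hxy⟩ := hc _ (edge_of_kinds K' i0 hact)
  rw [Finset.mem_image] at hx hy
  obtain ⟨s, _, rfl⟩ := hx
  obtain ⟨t, _, rfl⟩ := hy
  refine ⟨_, hK (ι s), _, hK (ι t), ?_⟩
  rw [hval, hval] at hxy
  exact hxy

/-- Two more letters: forget the two extreme letters. -/
theorem colorable_add_two {k n : ℕ} (hk : 1 ≤ k) (h : TwoColorable k n) :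
    TwoColorable (k + 2) n := by
  refine colorable_of_section (by omega)
    (fun x => ⟨min ((x : ℕ) - 1) (k - 1), by omega⟩)
    (fun t => ⟨(t : ℕ) + 1, by omega⟩) ?_ ?_ h
  · intro t
    ext
    have := t.2
    simp only
    omega
  · intro t
    ext
    have := t.2
    simp only [Fin.val_rev]
    omega

/-- One more letter when the number of letters is even: forget the middle letter. -/
theorem colorable_succ_of_even {k n : ℕ} (hk : 1 ≤ k) (he : Even k) (h : TwoColorable k n) :
    TwoColorable (k + 1) n := by
  obtain ⟨m, rfl⟩ := he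
  refine colorable_of_section (by omega)
    (fun x => ⟨if (x : ℕ) < m then x else x - 1, by have := x.2; split_ifs <;> omega⟩)
    (fun t => ⟨if (t : ℕ) < m then t else t + 1, by have := t.2; split_ifs <;> omega⟩) ?_ ?_ h
  · intro t
    ext
    have := t.2
    simp only
    split_ifs <;> omega
  · intro t
    ext
    have := t.2
    simp only [Fin.val_rev]
    split_ifs <;> omega

/-- A 2-colouring of `H(k,n)`, `k` even, gives one of `H(k',n)` for all `k' ≥ k`. -/
theorem colorable_of_even {k k' n : ℕ} (hk : 1 ≤ k) (he : Even k) (hkk : k ≤ k')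
    (h : TwoColorable k n) : TwoColorable k' n := by
  have key : ∀ j : ℕ, TwoColorable (k + 2 * j) n := by
    intro j
    induction j with
    | zero => exact h
    | succ j ih =>
      have h1 : 1 ≤ k + 2 * j := by omega
      exact colorable_add_two h1 ih
  rcases Nat.even_or_odd (k' - k) with ⟨j, hj⟩ | ⟨j, hj⟩
  · have : k' = k + 2 * j := by omega
    rw [this]
    exact key j
  · have : k' = (k + 2 * j) + 1 := by omega
    rw [this]
    have h1 : 1 ≤ k + 2 * j := by omega
    have h2 : Even (k + 2 * j) := he.add (even_two_mul j)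
    exact colorable_succ_of_even h1 h2 (key j)

end Pool.Agent.helper65.HJ
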